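import Pool.Agent.Helper10.HS.GoalsL
import Pool.Agent.Helper57.HS.DefsB

/-! # HS: the assembly of the main theorem -/

open Complex Metric Set Filter Topology MeasureTheory
open scoped ContDiff ComplexConjugate ComplexOrder Manifold Matrix

namespace Pool.Agent.Helper10.HS

open Pool.Agent.Helper95.Lin Pool.Agent.Helper16.Abund Pool.Agent.Helper92.Orb
open Pool.Agent.Helper10.SP Pool.Agent.Helper95.RK Pool.Agent.Helper15.RK
open Pool.Agent.Helper57.HS Pool.Agent.Helper10.RK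

universe u v

/-- In dimension `0` the constant `1` is an invariant canonical form. -/
theorem orb_zero {G : Type u} {M : Type v} [Group G] [MulAction G M] [TopologicalSpace M]
    [ConnectedSpace M] [ChartedSpace (Fin 0 → ℂ) M] : OrbSemiample 0 G M := by
  have hj : ∀ (X Y : Type v) [TopologicalSpace X] [ChartedSpace (Fin 0 → ℂ) X] [TopologicalSpace Y]
      [ChartedSpace (Fin 0 → ℂ) Y] (f : X → Y) (x : X), jac 0 f x = 1 := by
    intro X Y _ _ _ _ f x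
    have h0 : ∀ L : (Fin 0 → ℂ) →L[ℂ] (Fin 0 → ℂ), L.det = 1 := fun L => by
      unfold ContinuousLinearMap.det
      exact LinearMap.det_eq_one_of_subsingleton _
    exact h0 _
  refine ⟨1, le_refl 1, fun x => ⟨fun _ => 1, ⟨?_, ?_⟩, one_ne_zero⟩⟩
  · intro V ψ hV hψ z hz
    have : Subsingleton (Fin 0 → ℂ) := inferInstance
    exact (hasFDerivWithinAt_of_subsingleton _ _ _).differentiableWithinAt
  · intro γ _ y
    rw [hj, one_pow, one_mul]

theorem herm_of_kahler {n : ℕ} {M : Type v} [TopologicalSpace M] [ChartedSpace (Fin n → ℂ) M]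
    {h : M → Matrix (Fin n) (Fin n) ℂ} (hh : KahlerMetric n M h) : HermMetric n M h :=
  ⟨hh.1, fun V ψ hψ => (hh.2 V ψ hψ).1⟩

theorem hneg_of_nhc (hPM : S_PMH.{u, v}) (hHN : S_HNEGH) {n : ℕ} {G : Type u} {M : Type v}
    [Group G] [MulAction G M] [TopologicalSpace M] [T2Space M] [ChartedSpace (Fin n → ℂ) M]
    [IsManifold 𝓘(ℂ, Fin n → ℂ) ω M] {h : M → Matrix (Fin n) (Fin n) ℂ} (hD : DataH n G M h)
    (hpm : ∀ (V : Set (Cn n)) (ψ : Cn n → M), Par n ψ V → (∀ x ∈ V, (pm n h ψ x).PosDef) ∧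
      (∀ i j, ContDiffOn ℝ ∞ (fun x => pm n h ψ x i j) V) ∧
      ∀ x ∈ V, ∀ i j l, cd l (fun y => pm n h ψ y i j) x = cd i (fun y => pm n h ψ y l j) x)
    (hN : ∀ (V : Set (Cn n)) (ψ : Cn n → M), Par n ψ V → NHC (pm n h ψ) V) (v : M → ℝ) :
    HNeg n M h v := by
  intro V ψ hψ σ hσ z hz _
  obtain ⟨h1, h2, -⟩ := hpm V ψ hψ
  have h4 := ((hPM hD h (herm_of_kahler hD.kah) hD.inv).1 V ψ hψ).2.2.1
  have h5 : sqn n h ψ σ =ᶠ[𝓝 z] fun y => (hermi (pm n h ψ y) (σ y) (σ y)).re := by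
    filter_upwards [hψ.1.1.mem_nhds hz] with y hy
    rw [h4 y hy, sqn]
  have h6 := hHN V (pm n h ψ) hψ.1.1 h1 h2 σ hσ z hz (σ z)
  have h7 := hN V ψ hψ z hz (σ z)
  have h8 : lev (sqn n h ψ σ) z (σ z) =
      lev (fun y => (hermi (pm n h ψ y) (σ y) (σ y)).re) z (σ z) := by
    unfold lev hess
    have e1 : ∀ e : Cn n, (fun y => fderiv ℝ (sqn n h ψ σ) y e) =ᶠ[𝓝 z]
        fun y => fderiv ℝ (fun y => (hermi (pm n h ψ y) (σ y) (σ y)).re) y e := by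
      intro e
      filter_upwards [h5.eventuallyEq_nhds] with y hy
      rw [hy.fderiv_eq]
    rw [(e1 (σ z)).fderiv_eq, (e1 (I • σ z)).fderiv_eq]
  rw [h8]
  linarith

theorem tout_of_post (hP : S_POST.{u}) : S_TOUT.{u} := by
  intro n T G _ R H hK hN
  obtain ⟨k, ε, Q, hk, hε, hQ, hc, hf⟩ := hP T R H hK hN
  rcases Nat.lt_or_ge k n with h | h
  · exact Or.inl ⟨k, h, Q, hQ.ket, hc⟩
  · exact Or.inr (hf (le_antisymm hk h))

theorem mainhs (hT : S_TOUT.{u}) (hPM : S_PMH.{u, v}) (hKET : S_KETH.{u, v})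
    (hUNI : S_UNIH.{u, v}) (hPUSH : S_PUSHV.{u, v}) (hHN : S_HNEGH) (hNH : S_NHCC.{v})
    (hFZ : S_FOLZ.{u, v}) (hFLD : S_FLD.{u, v}) (hFLF : S_FLF.{u, v}) (hFLTM : S_FLTM.{u, v})
    (hFR : S_FRONT.{u, v}) (hM : S_MAINRK.{u, v}) : S_MAINHS.{u, v} := by
  intro n G M _ _ _ _ _ _ _ h hD hN
  rcases Nat.eq_zero_or_pos n with hn | hn
  · subst hn
    exact orb_zero
  have hN' := hNH h hN
  obtain ⟨T, E, hE, hC⟩ := hUNI hn hD
  obtain ⟨hK, hpm⟩ := hKET hD T E hE hC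
  rcases hT T _ _ hK (hN' T E hE) with ⟨k, hk, Q, hQ, hcor⟩ | hflat
  · obtain ⟨v, hv, hvinv, -, hrank⟩ := hPUSH hD T E hE hC Q hQ
    have hr := hrank k hcor
    have hneg := hneg_of_nhc hPM hHN hD hpm hN' v
    obtain ⟨b, rfl⟩ : ∃ b, n = b + k := ⟨n - k, by omega⟩
    have hDK : DataK b k G M h v := ⟨hD.act, hD.proper, hD.kah, hD.inv, hv, hvinv, hr⟩
    rcases Nat.eq_zero_or_pos k with hk0 | hk0
    · subst hk0
      exact hM (by omega) hDK (hFZ hDK)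
    · exact hM (by omega) hDK
        (hFR hk0 hDK ⟨herm_of_kahler hD.kah, hD.inv, Or.inr ⟨hD.kah, hneg⟩⟩)
  · obtain ⟨k, rfl⟩ : ∃ k, n = 0 + k := ⟨n, (zero_add n).symm⟩
    obtain ⟨v, hDK, hF⟩ := hFLD hD (hFLTM hD T E hE hC hflat)
    exact hFLF hDK hF

end Pool.Agent.Helper10.HS
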