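import Pool.Agent.Helper57.HS.Defs
import Pool.Agent.Helper10.RK.Main
import Pool.Agent.Helper95.RK.GoalsC
import Pool.Agent.Helper10.Stmt.DefsHS

/-!
# HS: from the étale relation to the manifold, and the reduction to RK

`M` is a connected complex manifold of dimension `n` with a proper cocompact action of `G` and an invariant
Kähler metric `h` with nonpositive holomorphic sectional curvature. The analysis on the étale relation of a
parametrization `E` of `M` gives a metric `Q` (a twisted Kähler-Einstein metric) whose canonical curvature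
`LM (log det Q)` is semipositive of constant corank `k < n`, or `h` is flat (`S_TOUT`). This file contains the
passage from `M` to the étale relation and back.
-/

open Complex Metric Set Filter Topology MeasureTheory
open scoped ContDiff ComplexConjugate ComplexOrder Manifold Matrix

namespace Pool.Agent.Helper10.HS

open Pool.Agent.Helper95.Lin Pool.Agent.Helper16.Abund Pool.Agent.Helper92.Orb
open Pool.Agent.Helper10.SP Pool.Agent.Helper95.RK Pool.Agent.Helper15.RK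
open Pool.Agent.Helper57.HS Pool.Agent.Helper10.RK

universe u v

/-! ## Manifold and étale relation -/

/-- PARH. Basics on local parametrizations and the action. PROOF. Copy `Helper55/RK/PARBK.lean` (the proof of `S_PARBK`)
with `b + k` replaced by `n` and `DataK` by `DataH`; the parts on `lpot` are replaced by the formulas for `jac` which are
proved there. -/
def S_PARH : Prop := ∀ {n : ℕ} {G : Type u} {M : Type v} [Group G] [MulAction G M]
  [TopologicalSpace M] [T2Space M] [ChartedSpace (Fin n → ℂ) M] [IsManifold 𝓘(ℂ, Fin n → ℂ) ω M]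
  {h : M → Matrix (Fin n) (Fin n) ℂ}, DataH n G M h →
  (∀ (V V' : Set (Cn n)) (ψ : Cn n → M) (φ : Cn n → Cn n), Par n ψ V → IsOpen V' →
    DifferentiableOn ℂ φ V' → MapsTo φ V' V → (∀ x ∈ V', (fderiv ℂ φ x).det ≠ 0) →
    Par n (ψ ∘ φ) V' ∧ ∀ x ∈ V', jac n (ψ ∘ φ) x = jac n ψ (φ x) * (fderiv ℂ φ x).det) ∧
  (∀ (γ : G) (V : Set (Cn n)) (ψ : Cn n → M), Par n ψ V → Par n (fun x => γ • ψ x) V ∧
    ∀ x ∈ V, jac n (fun x => γ • ψ x) x = jac n (fun y : M => γ • y) (ψ x) * jac n ψ x) ∧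
  (∀ (V V' : Set (Cn n)) (ψ ψ' : Cn n → M), Par n ψ V → Par n ψ' V' →
    ∀ (γ : G), ∀ x ∈ V, ∀ x' ∈ V', γ • ψ x = ψ' x' →
    ∃ (τ : Cn n → Cn n) (U W : Set (Cn n)), IsOpen U ∧ IsOpen W ∧ x ∈ U ∧
      x' ∈ W ∧ U ⊆ V ∧ W ⊆ V' ∧ DifferentiableOn ℂ τ U ∧ InjOn τ U ∧ MapsTo τ U W ∧ τ x = x' ∧
      (∀ y ∈ U, (fderiv ℂ τ y).det ≠ 0) ∧ ∀ y ∈ U, ∀ y' ∈ W, γ • ψ y = ψ' y' ↔ y' = τ y) ∧
  (∀ (V : Set (Cn n)) (ψ : Cn n → M), Par n ψ V → ∀ U ⊆ V, IsOpen U → IsOpen (ψ '' U)) ∧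
  ∀ γ : G, Continuous (fun x : M => γ • x)

/-- PMH. The pull back matrix of an invariant Hermitian metric. PROOF. Copy `Helper35/RK/PMB.lean` (the proof of `S_PMB`)
with `b + k` replaced by `n` and `DataK` by `DataH`. -/
def S_PMH : Prop := ∀ {n : ℕ} {G : Type u} {M : Type v} [Group G] [MulAction G M]
  [TopologicalSpace M] [T2Space M] [ChartedSpace (Fin n → ℂ) M] [IsManifold 𝓘(ℂ, Fin n → ℂ) ω M]
  {h : M → Matrix (Fin n) (Fin n) ℂ}, DataH n G M h → ∀ q : M → Matrix (Fin n) (Fin n) ℂ,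
  HermMetric n M q → (∀ γ : G, InvMetric n q (fun y : M => γ • y)) →
  (∀ (V : Set (Cn n)) (ψ : Cn n → M), Par n ψ V →
    (∀ i j, ContDiffOn ℝ ∞ (fun x => pm n q ψ x i j) V) ∧ (∀ x ∈ V, (pm n q ψ x).PosDef) ∧
    (∀ x ∈ V, ∀ u w : Cn n, hermi (pm n q ψ x) u w =
      herm (q (ψ x)) (dvec n ψ x u) (dvec n ψ x w)) ∧
    ∀ (γ : G), ∀ x ∈ V, pm n q (fun y => γ • ψ y) x = pm n q ψ x) ∧
  ∀ (V V' : Set (Cn n)) (ψ : Cn n → M) (φ : Cn n → Cn n), Par n ψ V → IsOpen V' →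
    DifferentiableOn ℂ φ V' → MapsTo φ V' V → (∀ x ∈ V', (fderiv ℂ φ x).det ≠ 0) →
    ∀ x ∈ V', ∀ u w : Cn n, hermi (pm n q (ψ ∘ φ) x) u w =
      hermi (pm n q ψ (φ x)) (fderiv ℂ φ x u) (fderiv ℂ φ x w)

/-- KETH. The étale relation of a parametrization with cocompact image. USES: PARH, PMH. PROOF. Copy
`Helper4/RK/KETG.lean` (the proof of `S_KETG`) with `b + k` replaced by `n` and `DataK` by `DataH`. -/
def S_KETH : Prop := ∀ {n : ℕ} {G : Type u} {M : Type v} [Group G] [MulAction G M]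
  [TopologicalSpace M] [T2Space M] [ConnectedSpace M] [ChartedSpace (Fin n → ℂ) M]
  [IsManifold 𝓘(ℂ, Fin n → ℂ) ω M] {h : M → Matrix (Fin n) (Fin n) ℂ}, DataH n G M h →
  ∀ (T : Set (Cn n)) (E : Cn n → M), Par n E T →
  (∃ C ⊆ T, IsCompact C ∧ ∀ p : M, ∃ (γ : G), ∃ x ∈ C, γ • p = E x) →
  KEt T (RelT (G := G) T E) (pm n h E) ∧
  (∀ (V : Set (Cn n)) (ψ : Cn n → M), Par n ψ V → (∀ x ∈ V, (pm n h ψ x).PosDef) ∧
    (∀ i j, ContDiffOn ℝ ∞ (fun x => pm n h ψ x i j) V) ∧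
    ∀ x ∈ V, ∀ i j l, cd l (fun y => pm n h ψ y i j) x = cd i (fun y => pm n h ψ y l j) x)

/-- UNIH. A parametrization with cocompact image. USES: PARH. PROOF. For `p : M` the function
`x ↦ (chartAt p).symm (chartAt p p + r • x)` (`r > 0` small) is a parametrization on `ball 0 2` with value `p` at `0`; the
image of `ball 0 1` is open (`PARH`). Finitely many (`N > 0`, `M` is nonempty) of the translates of these images cover the
compact set of `OrbAction.cocompact`, so their translates cover `M`. `c i := 10 i • Pi.single 0 1` (`0 < n`),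
`E x := ψ_i (x - c i)` for `x ∈ ball (c i) 2`; `C := ⋃ closedBall (c i) 1`. See `Helper89/RK/FINF.lean`. -/
def S_UNIH : Prop := ∀ {n : ℕ} {G : Type u} {M : Type v} [Group G] [MulAction G M]
  [TopologicalSpace M] [T2Space M] [ConnectedSpace M] [ChartedSpace (Fin n → ℂ) M]
  [IsManifold 𝓘(ℂ, Fin n → ℂ) ω M] {h : M → Matrix (Fin n) (Fin n) ℂ}, 0 < n → DataH n G M h →
  ∃ (T : Set (Cn n)) (E : Cn n → M), Par n E T ∧
    ∃ C ⊆ T, IsCompact C ∧ ∀ p : M, ∃ (γ : G), ∃ x ∈ C, γ • p = E x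

/-- PUSHV. The volume density of an invariant metric `Q` of the étale relation is a density on `M`. USES: PARH, DETI,
WCH, LMF.
PROOF. For `p : M` choose `γ_p`, `x_p ∈ T` with `γ_p • p = E x_p`; `v p := det Q(x_p) |jac E x_p|⁻² |jac (γ_p •) p|²`. If
also `γ • p = E x`, `x ∈ T`, then `(γ γ_p⁻¹) • E x_p = E x`: an arrow `τ` with `τ x_p = x`, `PARH` (3); differentiate
`(γ γ_p⁻¹) • E y = E (τ y)`, `DETI`: `det Q y = det Q (τ y) |det Dτ y|²`: the value `v p` does not depend on the choice.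
So (a) `v (E x) |jac E x|² = det Q x` for `x ∈ T` (`γ = 1`); (b) `v (γ • p) |jac (γ •) p|² = v p`. For a parametrization `ψ`
and `z ∈ V` let `γ • ψ z = E x`, `τ` the transition (`PARH` (3)): near `z`: `lpot v ψ = ld Q ∘ τ + log |det Dτ|²` (b, a, chain
rule), so `lpot v ψ` is smooth and `lev (lpot v ψ) y e = lev (ld Q) (τ y) (Dτ e)` (`log |det Dτ|²` is pluriharmonic);
`Dτ` is invertible, so `CorankK` is preserved. -/
def S_PUSHV : Prop := ∀ {n : ℕ} {G : Type u} {M : Type v} [Group G] [MulAction G M]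
  [TopologicalSpace M] [T2Space M] [ConnectedSpace M] [ChartedSpace (Fin n → ℂ) M]
  [IsManifold 𝓘(ℂ, Fin n → ℂ) ω M] {h : M → Matrix (Fin n) (Fin n) ℂ}, DataH n G M h →
  ∀ (T : Set (Cn n)) (E : Cn n → M), Par n E T →
  (∃ C ⊆ T, IsCompact C ∧ ∀ p : M, ∃ (γ : G), ∃ x ∈ C, γ • p = E x) →
  ∀ Q : Cn n → Matrix (Fin n) (Fin n) ℂ, KEt T (RelT (G := G) T E) Q →
  ∃ v : M → ℝ, CanMetric n M v ∧
    (∀ (γ : G) (x : M), v (γ • x) * ‖jac n (fun y : M => γ • y) x‖ ^ 2 = v x) ∧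
    (∀ x ∈ T, lpot n v E x = ld Q x) ∧
    ∀ k : ℕ, CorankK k (ld Q) T → ∀ (V : Set (Cn n)) (ψ : Cn n → M), Par n ψ V →
      CorankK k (lpot n v ψ) V

/-- HNEGH. Nonpositive holomorphic sectional curvature in terms of holomorphic vector fields.
PROOF. Let `σ` be holomorphic, `f x := (hermi (H x) (σ x) (σ x)).re`; `∑ H i j σ_i conj(σ_j)` is real. `cdb l f = ∑ (cdb l H i j) σ_i conj σ_j +
∑ H i j σ_i conj(cd l σ_j)` and `LM f k l = cd k (cdb l f) = ∑ (cd k cdb l H i j) σ_i conj σ_j +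
∑ (cdb l H i j) (cd k σ_i) conj σ_j + ∑ (cd k H i j) σ_i conj(cd l σ_j) + ∑ H i j (cd k σ_i) conj(cd l σ_j)`. For `e ∈ ℂⁿ`
let `a := ∑ k, e_k (cd k σ + Γ_kᵗ σ)` (row vector: `∑ k, e_k (cd k σ_j + ∑ i, σ_i Gam H k i j)`). Since
`cd k H = Γ_k H`, `cdb l H = H Γ_lᴴ` (`H` Hermitian) one gets `∑ LM f k l e_k conj e_l = hermi H a a -
∑ crv H i j k l σ_i conj σ_j e_k conj e_l`. So `lev f z e = (∑ LM f k l e_k conj e_l).re` (`LMF`)
`≥ - Re ∑ crv σ conj σ e conj e`, and for `e = σ z` this is `≥ 0` by `NHC`. -/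
def S_HNEGH : Prop := ∀ {n : ℕ} (V : Set (Cn n)) (H : Cn n → Matrix (Fin n) (Fin n) ℂ), IsOpen V →
  (∀ x ∈ V, (H x).PosDef) → (∀ i j, ContDiffOn ℝ ∞ (fun x => H x i j) V) →
  ∀ σ : Cn n → Cn n, DifferentiableOn ℂ σ V → ∀ z ∈ V, ∀ e : Cn n,
    - (∑ i, ∑ j, ∑ k, ∑ l, crv H z i j k l * σ z i * conj (σ z j) * e k * conj (e l)).re ≤
      lev (fun y => (hermi (H y) (σ y) (σ y)).re) z e

/-- NHCC. The definitions of `Helper10/Stmt/DefsHS.lean` and the internal ones. PROOF. `Stmt.pullM = pm`,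
`Stmt.dz = cd`, `Stmt.dzb = cdb`, `Stmt.Par ↔ Par` (unfold; see `Helper10/Stmt/Conv.lean`), and
`crv H x i j k l = Stmt.curv H x i j k l`: expand the matrix products. -/
def S_NHCC : Prop := ∀ {n : ℕ} {M : Type v} [TopologicalSpace M] [ChartedSpace (Fin n → ℂ) M]
  (h : M → Matrix (Fin n) (Fin n) ℂ), Pool.Agent.Helper10.Stmt.NonposHSC n M h →
  ∀ (V : Set (Cn n)) (ψ : Cn n → M), Par n ψ V → NHC (pm n h ψ) V

/-! ## The positive case -/

/-- FOLZ. `k = 0`: the kernel foliation is the foliation by points.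
PROOF. `herm`: a Kähler metric is a Hermitian metric (`SmoothForm`: see `Helper4/RK/KETG.lean`). `inv`: `DataK.inv`.
`chart`: the inverse of the chart at `p`, translated, on a small ball (`Cn (b + 0) = Cn b`, `base x = x`,
`prodK U (ball 0 r) = U` as `Cn 0` is a point); `CorankK 0`: the kernel is the subspace of dimension `0`, so
`lev = 0 ↔ e = 0 ↔ base e = 0`. `flat`: all indices in `Fin 0`; the matrix of size `0` is positive definite. -/
def S_FOLZ : Prop := ∀ {b : ℕ} {G : Type u} {M : Type v} [Group G] [MulAction G M]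
  [TopologicalSpace M] [T2Space M] [ConnectedSpace M] [ChartedSpace (Fin (b + 0) → ℂ) M]
  [IsManifold 𝓘(ℂ, Fin (b + 0) → ℂ) ω M] {h : M → Matrix (Fin (b + 0)) (Fin (b + 0)) ℂ}
  {v : M → ℝ}, DataK b 0 G M h v → FlatFol b 0 G M h v

/-! ## The flat case -/

/-- FLD. A flat Kähler metric: `b = 0`, all directions are fibre directions. USES: PARH, PMH, WCH, LMF.
PROOF. `v p := (det (h p)).re > 0`. For a parametrization `ψ`, `H := pm n h ψ` (`n = 0 + k`):
`H x i j = herm (h (ψ x)) (dvec ψ x e_i) (dvec ψ x e_j)`, so `det (H x) = det (h (ψ x)) |jac ψ x|²`,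
`lpot v ψ = ld H` (smooth); the same computation for `y ↦ γ • y` gives the invariance of `v`. `cd k (ld H) =
tr (Gam H k)` (Jacobi), `LM (ld H) k l = cd k (cdb l (ld H)) = cdb l (tr (Gam H k)) = 0`, since
`cdb l (Gam H k) = - crv(..) H⁻¹ = 0`. So `lev (lpot v ψ) = 0`: `DataK.rank` with `S = ⊤` (`finrank = 0 + k`). `FlatFol`: `chart`:
as in FOLZ (`base e = 0` always: `Cn 0` is a point); `flat`: `gm h ψ` is `H` up to the bijection
`Fin.natAdd 0 : Fin k → Fin (0 + k)`, `chrM (gm h ψ) i` is `Gam H (natAdd i)`; `kah`: closedness; `flat`: `crv = 0`; `vol`: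
`log det (gm h ψ) = lpot v ψ`. -/
def S_FLD : Prop := ∀ {k : ℕ} {G : Type u} {M : Type v} [Group G] [MulAction G M]
  [TopologicalSpace M] [T2Space M] [ConnectedSpace M] [ChartedSpace (Fin (0 + k) → ℂ) M]
  [IsManifold 𝓘(ℂ, Fin (0 + k) → ℂ) ω M] {h : M → Matrix (Fin (0 + k)) (Fin (0 + k)) ℂ},
  DataH (0 + k) G M h → (∀ (V : Set (Cn (0 + k))) (ψ : Cn (0 + k) → M), Par (0 + k) ψ V →
    ∀ x ∈ V, ∀ i j l m, crv (pm (0 + k) h ψ) x i j l m = 0) →
  ∃ v : M → ℝ, DataK 0 k G M h v ∧ FlatFol 0 k G M h v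

/-- FLS. A finite family of special charts (`b = 0`). USES: AFFC, PARBK, PMB, WCH (`Helper95/RK`, all proved).
PROOF. As `S_SPECK` and `S_FINSPK` (`Helper52/RK/SPECK.lean`, `Helper26/RK/FINSPK.lean`): the only place where `0 < b` is
used there is the hypothesis of `BZERO`, whose conclusion is about indices `a : Fin b` and is empty for `b = 0`. -/
def S_FLS : Prop := ∀ {k : ℕ} {G : Type u} {M : Type v} [Group G] [MulAction G M]
  [TopologicalSpace M] [T2Space M] [ConnectedSpace M] [ChartedSpace (Fin (0 + k) → ℂ) M]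
  [IsManifold 𝓘(ℂ, Fin (0 + k) → ℂ) ω M] {h q : M → Matrix (Fin (0 + k)) (Fin (0 + k)) ℂ}
  {v : M → ℝ}, DataK 0 k G M h v → FlatFol 0 k G M q v →
  ∃ (N : ℕ) (ψ : Fin N → Cn (0 + k) → M) (Ψ : Fin N → Cn 0 → ℝ)
    (Hf : Fin N → Cn 0 → Matrix (Fin k) (Fin k) ℂ), 0 < N ∧
    (∀ i, SpecK v q (ball (0 : Cn 0) 6) (ball (0 : Cn k) 6) (ψ i) (Ψ i) (Hf i)) ∧
    ∀ p : M, ∃ (γ : G) (i : Fin N), ∃ x ∈ prodK (ball (0 : Cn 0) 1) (ball (0 : Cn k) 1),
      γ • p = ψ i x

/-- FLE. The developing map. USES: FLS, EXTSK, TRSK, IDM (`Helper95/RK/GoalsC.lean`, `S_IDM` of SP; proved).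
PROOF. `EXTSK` (no hypothesis on `b`) and induction (as in `S_LMAPK`, `Helper80/RK/LMAPK.lean`) give for every `i` a map
`E_i` with `SpecK v q (ball 0 5) univ E_i (Ψ i) (Hf i)` which agrees with `ψ i` on the product of the balls of radius `5`
(`prodK (ball 0 5) univ = univ` as `Cn 0` is a point). (A) If `γ • E_i x = E_j x'` then `TRSK` gives `A`, `β` (values at the
point of `Cn 0`) with `γ • E_i (ptK 0 w) = E_j (ptK 0 (A w + β))` for `w` near `fib x`, so for all `w` (`IDM`, `ℂᵏ` is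
connected); `A` is invertible (`PotRK.detA`). `E := E_0`. (B) `E` is surjective: its image is open; let `p` be in the
closure of the image, `γ • p = ψ_j x'`, `x'` in the unit ball; the image of the ball of radius `2` under `E_j` is a
neighbourhood of `γ • p`, so some `γ • E x = E_j x''`; by (A) `γ • E (ptK 0 w) = E_j (ptK 0 (A w + β))` for all `w`, so
`p = γ⁻¹ • E_j x'` is in the image. `M` is connected. -/
def S_FLE : Prop := ∀ {k : ℕ} {G : Type u} {M : Type v} [Group G] [MulAction G M]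
  [TopologicalSpace M] [T2Space M] [ConnectedSpace M] [ChartedSpace (Fin (0 + k) → ℂ) M]
  [IsManifold 𝓘(ℂ, Fin (0 + k) → ℂ) ω M] {h q : M → Matrix (Fin (0 + k)) (Fin (0 + k)) ℂ}
  {v : M → ℝ}, DataK 0 k G M h v → FlatFol 0 k G M q v →
  ∃ (E : Cn (0 + k) → M) (Hf : Matrix (Fin k) (Fin k) ℂ), Par (0 + k) E univ ∧ Hf.PosDef ∧
    (∀ x, gm q E x = Hf) ∧ (∀ p : M, ∃ w : Cn k, E (ptK 0 w) = p) ∧
    ∀ (γ : G) (w w' : Cn k), γ • E (ptK 0 w) = E (ptK 0 w') →
      ∃ (A : Matrix (Fin k) (Fin k) ℂ) (β : Cn k), A.det ≠ 0 ∧ w' = A *ᵥ w + β ∧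
        (∀ u w : Cn k, hermi Hf (A *ᵥ u) (A *ᵥ w) = hermi Hf u w) ∧
        ∀ y : Cn k, γ • E (ptK 0 y) = E (ptK 0 (A *ᵥ y + β))

/-- FLF. The flat case. USES: FLE, AFB (`Helper45/RK/GoalsJ.lean`, proved), PARBK.
PROOF. `𝒢 := {(A, β) | A.det ≠ 0, A preserves hermi Hf, ∃ γ, ∀ y, γ • E (0, y) = E (0, A y + β)}`. `AffSet 𝒢`: `one`, `mul`,
`inv` clear. `bdd`: `A` is an isometry of the norm of `Hf`. `coc`: the compact set of `OrbAction.cocompact` is covered by
`E (0, ball 0 r)` for some `r` (open increasing cover); for `w` some `γ • E (0, w) = E (0, w')`, `‖w'‖ < r`, `FLE`. `proper`: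
otherwise there are infinitely many different `(A_j, β_j)` with `‖β_j‖ ≤ r`, group elements `γ_j` with
`γ_j • E (0, 0) = E (0, β_j)`; by `DataK.proper` (compact `E (0, closedBall 0 r)`) infinitely many have the same `γ`; a
subsequence `β_j → β` (closed ball), `E (0, β_j) = γ • E (0, 0)` is constant and `E` is injective near `(0, β)`, so
`β_j = β` for large `j`; then `E (0, A_j y + β) = γ • E (0, y)` for all `j` and small `y`, so `A_j y` does not depend on `j` (`A_j`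
bounded, `E` injective near `(0, β)`). `AFB`: the set `S` of the `A` is finite; the powers of `A` are in `S`, so
`A ^ s = 1` with `s = |S|!` and `(det A) ^ s = 1`. `f p := (jac E (ptK 0 w)) ^ (-s)` for `E (0, w) = p` (`≠ 0`; independent of
`w`: for `γ = 1` differentiate `E (0, y) = E (0, A y + β)`: `jac E (0, y) = jac E (0, A y + β) det A`). `f` is an `s`-canonical
form: for holomorphic `ψ` (`HoloOn`), near `z` write `ψ = E ∘ τ` with `τ` holomorphic (local inverse of `E`), so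
`f (ψ z) jac ψ z ^ s = (det Dτ z) ^ s`. Invariance: `γ • E (0, w) = E (0, w')`, differentiate `γ • E (0, y) = E (0, A y + β)`. -/
def S_FLF : Prop := ∀ {k : ℕ} {G : Type u} {M : Type v} [Group G] [MulAction G M]
  [TopologicalSpace M] [T2Space M] [ConnectedSpace M] [ChartedSpace (Fin (0 + k) → ℂ) M]
  [IsManifold 𝓘(ℂ, Fin (0 + k) → ℂ) ω M] {h q : M → Matrix (Fin (0 + k)) (Fin (0 + k)) ℂ}
  {v : M → ℝ}, DataK 0 k G M h v → FlatFol 0 k G M q v → OrbSemiample (0 + k) G M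

/-! ## The main theorem -/

/-- TOUT. The output of the analysis on the étale relation (helper57: AYT, AYG; helper15: CORE; helper95: SPLIT, SBOUND,
CLAIM A). -/
def S_TOUT : Prop := ∀ {n : ℕ} (T : Set (Cn n)) {G : Type u} [Group G]
  (R : G → Cn n → Cn n → Prop) (H : Cn n → Matrix (Fin n) (Fin n) ℂ), KEt T R H → NHC H T →
  (∃ k < n, ∃ Q, KEt T R Q ∧ CorankK k (ld Q) T) ∨ ∀ x ∈ T, ∀ i j k l, crv H x i j k l = 0

/-- FLTM. Flatness on the étale relation gives flatness on `M`. USES: PARH, PMH, KETH.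
PROOF. `ψ` a parametrization, `z ∈ V`, `γ • ψ z = E x`, `τ` the transition; `H' := pm n h ψ`, `H := pm n h E`:
`hermi (H' y) u w = hermi (H (τ y)) (Dτ u) (Dτ w)`, i.e. `H' = J (H ∘ τ) Jᴴ` with the holomorphic invertible matrix
`J i p = ∂_i τ_p`. `Gam H' k = (cd k J) J⁻¹ + J (∑ p, ∂_k τ_p (Gam H p) ∘ τ) J⁻¹`, `cdb l (Gam H p) = 0` on `T` and `τ`
holomorphic give `cdb l (Gam H' k) = 0`; `crv H' = - (cdb l (Gam H' k)) H'` (product rule, `H'` smooth invertible). -/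
def S_FLTM : Prop := ∀ {n : ℕ} {G : Type u} {M : Type v} [Group G] [MulAction G M]
  [TopologicalSpace M] [T2Space M] [ConnectedSpace M] [ChartedSpace (Fin n → ℂ) M]
  [IsManifold 𝓘(ℂ, Fin n → ℂ) ω M] {h : M → Matrix (Fin n) (Fin n) ℂ}, DataH n G M h →
  ∀ (T : Set (Cn n)) (E : Cn n → M), Par n E T →
  (∃ C ⊆ T, IsCompact C ∧ ∀ p : M, ∃ (γ : G), ∃ x ∈ C, γ • p = E x) →
  (∀ x ∈ T, ∀ i j k l, crv (pm n h E) x i j k l = 0) → ∀ (V : Set (Cn n)) (ψ : Cn n → M),
  Par n ψ V → ∀ x ∈ V, ∀ i j k l, crv (pm n h ψ) x i j k l = 0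

/-- The main theorem HS, internal form. -/
def S_MAINHS : Prop := ∀ {n : ℕ} {G : Type u} {M : Type v} [Group G] [MulAction G M]
  [TopologicalSpace M] [T2Space M] [ConnectedSpace M] [ChartedSpace (Fin n → ℂ) M]
  [IsManifold 𝓘(ℂ, Fin n → ℂ) ω M] {h : M → Matrix (Fin n) (Fin n) ℂ}, DataH n G M h →
  Pool.Agent.Helper10.Stmt.NonposHSC n M h → OrbSemiample n G M

end Pool.Agent.Helper10.HS
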