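import Pool.Agent.Helper10.HS.GoalsL
import Pool.Agent.Helper45.HS.MatC
import Pool.Agent.Helper90.SP.LMF
import Pool.Agent.Helper95.Lin.Basics

/-!
# HS, packet HNEGH: nonpositive holomorphic sectional curvature in terms of holomorphic vector fields
-/

open Complex Metric Set Filter Topology MeasureTheory
open scoped ContDiff ComplexConjugate ComplexOrder Manifold Matrix

namespace Pool.Agent.Helper10.HS.HNEGHp

open Pool.Agent.Helper95.Lin Pool.Agent.Helper16.Abund Pool.Agent.Helper92.Orb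
  Pool.Agent.Helper10.SP Pool.Agent.Helper95.RK Pool.Agent.Helper57.HS Pool.Agent.Helper10.HS
open Pool.Agent.Helper45.HS

variable {n : ℕ} {V : Set (Cn n)}

theorem hermi_vec (A : Matrix (Fin n) (Fin n) ℂ) (u v : Cn n) :
    hermi A u v = (u ᵥ* A) ⬝ᵥ star v := by
  unfold hermi
  simp only [dotProduct, Matrix.vecMul, Pi.star_apply, Finset.sum_mul]
  rw [Finset.sum_comm]
  refine Finset.sum_congr rfl fun j _ => Finset.sum_congr rfl fun i _ => ?_
  rw [Complex.star_def]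
  ring

theorem hermi_self_nonneg {A : Matrix (Fin n) (Fin n) ℂ} (hA : A.PosDef) (u : Cn n) :
    0 ≤ (hermi A u u).re := by
  have h := hA.posSemidef.dotProduct_mulVec_nonneg (star u)
  have h2 : star (star u) ⬝ᵥ A *ᵥ star u = hermi A u u := by
    rw [star_star, hermi_vec, Matrix.dotProduct_mulVec]
  rw [h2] at h
  exact (Complex.nonneg_iff.1 h).1

/-- `conj τ_j σ_i`. -/
noncomputable def rk1 (σ τ : Cn n → Cn n) (y : Cn n) : Matrix (Fin n) (Fin n) ℂ :=
  Matrix.of fun j i => conj (τ y j) * σ y i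

/-- The derivative of the vector field. -/
noncomputable def Dv (k : Fin n) (σ : Cn n → Cn n) (y : Cn n) : Cn n :=
  fun i => cd k (fun z => σ z i) y

/-- Smooth components annihilated by `cdb`. -/
def HV (σ : Cn n → Cn n) (V : Set (Cn n)) : Prop :=
  ∀ i, ContDiffOn ℝ ∞ (fun y => σ y i) V ∧ ∀ l, ∀ x ∈ V, cdb l (fun y => σ y i) x = 0

theorem HV.smM {σ τ : Cn n → Cn n} (hσ : HV σ V) (hτ : HV τ V) : SmM (rk1 σ τ) V := by
  intro j i
  exact (Complex.conjCLE.contDiff.comp_contDiffOn (hτ j).1).mul (hσ i).1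

theorem HV.Dv (hV : IsOpen V) {σ : Cn n → Cn n} (hσ : HV σ V) (k : Fin n) : HV (Dv k σ) V := by
  intro i
  refine ⟨Wirt.cd_smooth hV (hσ i).1 k, fun l x hx => ?_⟩
  have h := ((Wirt.wirt V hV _ _ (hσ i).1 (hσ i).1).2.2.2.2.1 k l x hx).2.2
  have h1 : cd k (cdb l fun y => σ y i) x = 0 := by
    rw [(cd_congr' hV hx (f := cdb l fun y => σ y i) (g := fun _ => 0)
      (fun y hy => (hσ i).2 l y hy) k).1]
    exact (cd_const'' 0 k).1
  rw [h1] at h
  exact h.symm

theorem cdM_rk1 (hV : IsOpen V) {σ τ : Cn n → Cn n} (hσ : HV σ V) (hτ : HV τ V) {x : Cn n}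
    (hx : x ∈ V) (k : Fin n) : cdM k (rk1 σ τ) x = rk1 (Dv k σ) τ x := by
  ext j i
  have h1 := (cd_mul'' hV hx (Complex.conjCLE.contDiff.comp_contDiffOn (hτ j).1) (hσ i).1 k).1
  have h2 := ((Wirt.wirt V hV _ _ (hτ j).1 (hτ j).1).2.2.2.1 k x hx).1
  have h3 := (hτ j).2 k x hx
  change cd k (fun y => conj (τ y j) * σ y i) x = conj (τ x j) * cd k (fun z => σ z i) x
  refine h1.trans ?_
  change cd k (fun y => conj (τ y j)) x * σ x i + conj (τ x j) * cd k (fun y => σ y i) x = _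
  rw [h2, h3, map_zero, zero_mul, zero_add]

theorem cdbM_rk1 (hV : IsOpen V) {σ τ : Cn n → Cn n} (hσ : HV σ V) (hτ : HV τ V) {x : Cn n}
    (hx : x ∈ V) (k : Fin n) : cdbM k (rk1 σ τ) x = rk1 σ (Dv k τ) x := by
  ext j i
  have h1 := (cd_mul'' hV hx (Complex.conjCLE.contDiff.comp_contDiffOn (hτ j).1) (hσ i).1 k).2
  have h2 := ((Wirt.wirt V hV _ _ (hτ j).1 (hτ j).1).2.2.2.1 k x hx).2
  have h3 := (hσ i).2 k x hx
  change cdb k (fun y => conj (τ y j) * σ y i) x = conj (cd k (fun z => τ z j) x) * σ x i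
  refine h1.trans ?_
  change cdb k (fun y => conj (τ y j)) x * σ x i + conj (τ x j) * cdb k (fun y => σ y i) x = _
  rw [h2, h3, mul_zero, add_zero]

theorem trace_rk1 (A : Matrix (Fin n) (Fin n) ℂ) (σ τ : Cn n → Cn n) (y : Cn n) :
    Matrix.trace (A * rk1 σ τ y) = hermi A (σ y) (τ y) := by
  unfold hermi
  simp only [Matrix.trace, Matrix.diag_apply, Matrix.mul_apply, rk1, Matrix.of_apply]
  refine Finset.sum_congr rfl fun i _ => Finset.sum_congr rfl fun j _ => ?_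
  ring

/-- The second derivatives of `|σ|²`. -/
theorem second (hV : IsOpen V) {H : Cn n → Matrix (Fin n) (Fin n) ℂ} (hH : SmM H V)
    {σ : Cn n → Cn n} (hσ : HV σ V) {x : Cn n} (hx : x ∈ V) (k l : Fin n) :
    cd k (cdb l fun y => hermi (H y) (σ y) (σ y)) x =
      hermi (cdM k (cdbM l H) x) (σ x) (σ x) + hermi (cdbM l H x) (Dv k σ x) (σ x) +
      hermi (cdM k H x) (σ x) (Dv l σ x) + hermi (H x) (Dv k σ x) (Dv l σ x) := by
  have hM : SmM (rk1 σ σ) V := hσ.smM hσ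
  have h1 : (fun y => hermi (H y) (σ y) (σ y)) =
      fun y => Matrix.trace ((fun z => H z * rk1 σ σ z) y) := by
    funext y
    exact (trace_rk1 (H y) σ σ y).symm
  have h2 : ∀ y ∈ V, cdb l (fun y => hermi (H y) (σ y) (σ y)) y =
      Matrix.trace ((fun z => cdbM l H z * rk1 σ σ z + H z * rk1 σ (Dv l σ) z) y) := by
    intro y hy
    rw [h1, cdb_trace hV hy (hH.mul hM) l, cdbM_mul hV hy hH hM l, cdbM_rk1 hV hσ hσ hy l]
  have hbl : SmM (cdbM l H) V := hH.cdbM hV l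
  have hN : SmM (rk1 σ (Dv l σ)) V := hσ.smM (hσ.Dv hV l)
  rw [(cd_congr' hV hx h2 k).1, cd_trace hV hx ((hbl.mul hM).add (hH.mul hN)) k,
    cdM_add hV hx (hbl.mul hM) (hH.mul hN) k, cdM_mul hV hx hbl hM k, cdM_mul hV hx hH hN k,
    cdM_rk1 hV hσ hσ hx k, cdM_rk1 hV hσ (hσ.Dv hV l) hx k]
  simp only [Matrix.trace_add, trace_rk1]
  ring

theorem hermi_addL (A : Matrix (Fin n) (Fin n) ℂ) (u v w : Cn n) :
    hermi A (u + v) w = hermi A u w + hermi A v w := by
  rw [hermi_vec, hermi_vec, hermi_vec, Matrix.add_vecMul, add_dotProduct]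

theorem hermi_addR (A : Matrix (Fin n) (Fin n) ℂ) (u v w : Cn n) :
    hermi A u (v + w) = hermi A u v + hermi A u w := by
  rw [hermi_vec, hermi_vec, hermi_vec, star_add, dotProduct_add]

theorem hermi_vecMulL (A B : Matrix (Fin n) (Fin n) ℂ) (u w : Cn n) :
    hermi A (u ᵥ* B) w = hermi (B * A) u w := by
  rw [hermi_vec, hermi_vec, Matrix.vecMul_vecMul]

theorem hermi_vecMulR (A B : Matrix (Fin n) (Fin n) ℂ) (u w : Cn n) :
    hermi A u (w ᵥ* B) = hermi (A * Bᴴ) u w := by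
  rw [hermi_vec, hermi_vec, Matrix.star_vecMul, Matrix.dotProduct_mulVec, Matrix.vecMul_vecMul]

/-- The square. -/
theorem square {H D : Matrix (Fin n) (Fin n) ℂ} (hH : H.PosDef) (s d : Cn n) :
    hermi H (d + s ᵥ* (D * H⁻¹)) (d + s ᵥ* (D * H⁻¹)) =
      hermi (D * H⁻¹ * Dᴴ) s s + hermi Dᴴ d s + hermi D s d + hermi H d d := by
  have hu : IsUnit H.det := hH.det_pos.ne'.isUnit
  have h1 : D * H⁻¹ * H = D := by
    rw [Matrix.mul_assoc, Matrix.nonsing_inv_mul _ hu, Matrix.mul_one]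
  have h2 : (D * H⁻¹)ᴴ = H⁻¹ * Dᴴ := by
    rw [Matrix.conjTranspose_mul, Matrix.conjTranspose_nonsing_inv, hH.1.eq]
  have h3 : H * (H⁻¹ * Dᴴ) = Dᴴ := by
    rw [← Matrix.mul_assoc, Matrix.mul_nonsing_inv _ hu, Matrix.one_mul]
  rw [hermi_addL, hermi_addR, hermi_addR, hermi_vecMulL, hermi_vecMulL, hermi_vecMulR,
    hermi_vecMulR, h2, h1, h3, Matrix.mul_assoc D]
  ring

theorem hermi_sumM {ι : Type*} (t : Finset ι) (A : ι → Matrix (Fin n) (Fin n) ℂ) (c : ι → ℂ)
    (u v : Cn n) : hermi (∑ k ∈ t, c k • A k) u v = ∑ k ∈ t, c k * hermi (A k) u v := by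
  simp only [hermi_vec, Matrix.vecMul_sum, Matrix.vecMul_smul, sum_dotProduct, smul_dotProduct,
    smul_eq_mul]

theorem hermi_sumL {ι : Type*} (t : Finset ι) (A : Matrix (Fin n) (Fin n) ℂ) (c : ι → ℂ)
    (u : ι → Cn n) (v : Cn n) :
    hermi A (∑ k ∈ t, c k • u k) v = ∑ k ∈ t, c k * hermi A (u k) v := by
  simp only [hermi_vec, Matrix.sum_vecMul, Matrix.smul_vecMul, sum_dotProduct,
    smul_dotProduct, smul_eq_mul]

theorem hermi_sumR {ι : Type*} (t : Finset ι) (A : Matrix (Fin n) (Fin n) ℂ) (c : ι → ℂ)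
    (u : Cn n) (v : ι → Cn n) :
    hermi A u (∑ k ∈ t, c k • v k) = ∑ k ∈ t, conj (c k) * hermi A u (v k) := by
  simp only [hermi_vec, star_sum, star_smul, dotProduct_sum, dotProduct_smul, smul_eq_mul,
    Complex.star_def]

theorem hermi_self_real {A : Matrix (Fin n) (Fin n) ℂ} (hA : A.PosDef) (u : Cn n) :
    (((hermi A u u).re : ℝ) : ℂ) = hermi A u u := by
  have h := hA.posSemidef.dotProduct_mulVec_nonneg (star u)
  have h2 : star (star u) ⬝ᵥ A *ᵥ star u = hermi A u u := by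
    rw [star_star, hermi_vec, Matrix.dotProduct_mulVec]
  rw [h2] at h
  have h3 := (Complex.nonneg_iff.1 h).2
  exact Complex.ext (by simp) (by simpa using h3)

theorem hermi_smooth {H : Cn n → Matrix (Fin n) (Fin n) ℂ} (hH : SmM H V) {σ : Cn n → Cn n}
    (hσ : HV σ V) : ContDiffOn ℝ ∞ (fun y => hermi (H y) (σ y) (σ y)) V := by
  unfold hermi
  exact ContDiffOn.sum fun i _ => ContDiffOn.sum fun j _ =>
    ((hH i j).mul (hσ i).1).mul (Complex.conjCLE.contDiff.comp_contDiffOn (hσ j).1)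

theorem crv_eq (H : Cn n → Matrix (Fin n) (Fin n) ℂ) (z s : Cn n) (k l : Fin n) :
    ∑ i, ∑ j, crv H z i j k l * s i * conj (s j) =
      - hermi (cdM k (cdbM l H) z) s s + hermi (cdM k H z * (H z)⁻¹ * cdbM l H z) s s := by
  unfold hermi
  rw [← Finset.sum_neg_distrib, ← Finset.sum_add_distrib]
  refine Finset.sum_congr rfl fun i _ => ?_
  rw [← Finset.sum_neg_distrib, ← Finset.sum_add_distrib]
  refine Finset.sum_congr rfl fun j _ => ?_
  have : crv H z i j k l = - (cdM k (cdbM l H) z) i j +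
      (cdM k H z * (H z)⁻¹ * cdbM l H z) i j := rfl
  rw [this]
  ring

theorem crv_sum (H : Cn n → Matrix (Fin n) (Fin n) ℂ) (z s e : Cn n) :
    ∑ i, ∑ j, ∑ k, ∑ l, crv H z i j k l * s i * conj (s j) * e k * conj (e l) =
      ∑ k, ∑ l, e k * conj (e l) * (- hermi (cdM k (cdbM l H) z) s s +
        hermi (cdM k H z * (H z)⁻¹ * cdbM l H z) s s) := by
  have h1 : ∀ i j : Fin n, ∑ k, ∑ l, crv H z i j k l * s i * conj (s j) * e k * conj (e l) =
      ∑ q : Fin n × Fin n, e q.1 * conj (e q.2) * (crv H z i j q.1 q.2 * s i * conj (s j)) := by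
    intro i j
    rw [← Finset.univ_product_univ, Finset.sum_product]
    exact Finset.sum_congr rfl fun k _ => Finset.sum_congr rfl fun l _ => by ring
  have h2 : ∑ i, ∑ j, ∑ k, ∑ l, crv H z i j k l * s i * conj (s j) * e k * conj (e l) =
      ∑ q : Fin n × Fin n, e q.1 * conj (e q.2) *
        ∑ i, ∑ j, crv H z i j q.1 q.2 * s i * conj (s j) := by
    simp only [h1]
    rw [Finset.sum_congr rfl fun i _ => Finset.sum_comm, Finset.sum_comm]
    refine Finset.sum_congr rfl fun q _ => ?_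
    rw [Finset.mul_sum]
    exact Finset.sum_congr rfl fun i _ => by rw [Finset.mul_sum]
  rw [h2, ← Finset.univ_product_univ, Finset.sum_product]
  exact Finset.sum_congr rfl fun k _ => Finset.sum_congr rfl fun l _ => by rw [crv_eq]

theorem hnegh (hLMF : S_LMF) : S_HNEGH := by
  intro n V H hV hpos hsm σ hσ z hz e
  have hH : SmM H V := hsm
  have h0 : ∀ i, DifferentiableOn ℂ (fun y => σ y i) V := fun i => differentiableOn_pi.1 hσ i
  have h1 : ∀ i, ContDiffOn ℝ ∞ (fun y => σ y i) V := fun i =>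
    (holo_contDiffOn hV (h0 i)).restrict_scalars ℝ
  have hc : HV σ V := fun j => ⟨h1 j, (Wirt.wirt V hV _ _ (h1 j) (h1 j)).2.2.2.2.2.2 (h0 j)⟩
  obtain ⟨f, hf⟩ : ∃ f : Cn n → ℝ, f = fun y => (hermi (H y) (σ y) (σ y)).re := ⟨_, rfl⟩
  have hfr : ∀ y ∈ V, ((f y : ℝ) : ℂ) = hermi (H y) (σ y) (σ y) := by
    intro y hy
    rw [hf]
    exact hermi_self_real (hpos y hy) _
  have hfs : ContDiffOn ℝ ∞ f V := by
    rw [hf]
    exact Complex.reCLM.contDiff.comp_contDiffOn (hermi_smooth hH hc)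
  have hLM : ∀ k l, LM f z k l = cd k (cdb l fun y => hermi (H y) (σ y) (σ y)) z := by
    intro k l
    change cd k (cdb l (fun y => (f y : ℂ))) z = _
    exact (cd_congr' hV hz (fun y hy => (cd_congr' hV hy hfr l).2) k).1
  have hlev := (hLMF V hV f hfs).2.2.1 z hz e
  rw [← hf]
  -- the adjoint of the first derivative
  have hadj : ∀ l, cdbM l H z = (cdM l H z)ᴴ := by
    intro l
    rw [← cdbM_conjTranspose hV hz hH l]
    exact cdbM_congr hV hz (fun y hy => (hpos y hy).1.eq.symm) l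
  obtain ⟨D, hD⟩ : ∃ D : Matrix (Fin n) (Fin n) ℂ, D = ∑ k, e k • cdM k H z := ⟨_, rfl⟩
  obtain ⟨d, hd⟩ : ∃ d : Cn n, d = ∑ k, e k • Dv k σ z := ⟨_, rfl⟩
  have hDb : Dᴴ = ∑ l, conj (e l) • cdbM l H z := by
    rw [hD, Matrix.conjTranspose_sum]
    refine Finset.sum_congr rfl fun l _ => ?_
    rw [Matrix.conjTranspose_smul, hadj l]
    rfl
  have hA : hermi Dᴴ d (σ z) = ∑ k, ∑ l, e k * conj (e l) * hermi (cdbM l H z) (Dv k σ z) (σ z) := by
    rw [hDb, hermi_sumM, Finset.sum_comm]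
    refine Finset.sum_congr rfl fun l _ => ?_
    rw [hd, hermi_sumL, Finset.mul_sum]
    exact Finset.sum_congr rfl fun k _ => by ring
  have hB : hermi D (σ z) d = ∑ k, ∑ l, e k * conj (e l) * hermi (cdM k H z) (σ z) (Dv l σ z) := by
    rw [hD, hermi_sumM]
    refine Finset.sum_congr rfl fun k _ => ?_
    rw [hd, hermi_sumR, Finset.mul_sum]
    exact Finset.sum_congr rfl fun l _ => by ring
  have hC : hermi (H z) d d = ∑ k, ∑ l, e k * conj (e l) * hermi (H z) (Dv k σ z) (Dv l σ z) := by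
    rw [hd, hermi_sumL]
    refine Finset.sum_congr rfl fun k _ => ?_
    rw [hermi_sumR, Finset.mul_sum]
    exact Finset.sum_congr rfl fun l _ => by ring
  have hE : hermi (D * (H z)⁻¹ * Dᴴ) (σ z) (σ z) = ∑ k, ∑ l, e k * conj (e l) *
      hermi (cdM k H z * (H z)⁻¹ * cdbM l H z) (σ z) (σ z) := by
    have : ∀ E : Matrix (Fin n) (Fin n) ℂ,
        D * (H z)⁻¹ * E = ∑ k, e k • (cdM k H z * (H z)⁻¹ * E) := by
      intro E
      rw [hD, Matrix.sum_mul, Matrix.sum_mul]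
      exact Finset.sum_congr rfl fun k _ => by rw [Matrix.smul_mul, Matrix.smul_mul]
    rw [this, hermi_sumM]
    refine Finset.sum_congr rfl fun k _ => ?_
    have h2 : cdM k H z * (H z)⁻¹ * Dᴴ = ∑ l, conj (e l) • (cdM k H z * (H z)⁻¹ * cdbM l H z) := by
      rw [hDb, Matrix.mul_sum]
      exact Finset.sum_congr rfl fun l _ => by rw [Matrix.mul_smul]
    rw [h2, hermi_sumM, Finset.mul_sum]
    exact Finset.sum_congr rfl fun l _ => by ring
  have hsq := square (hpos z hz) (D := D) (σ z) d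
  have hnn := hermi_self_nonneg (hpos z hz) (d + σ z ᵥ* (D * (H z)⁻¹))
  have hmain : hermi (LM f z) e e + ∑ i, ∑ j, ∑ k, ∑ l, crv H z i j k l * σ z i * conj (σ z j) *
      e k * conj (e l) = hermi (H z) (d + σ z ᵥ* (D * (H z)⁻¹)) (d + σ z ᵥ* (D * (H z)⁻¹)) := by
    rw [hsq, hA, hB, hC, hE, crv_sum, ← Finset.sum_add_distrib, ← Finset.sum_add_distrib,
      ← Finset.sum_add_distrib]
    unfold hermi
    rw [← Finset.sum_add_distrib]
    refine Finset.sum_congr rfl fun k _ => ?_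
    rw [← Finset.sum_add_distrib, ← Finset.sum_add_distrib, ← Finset.sum_add_distrib,
      ← Finset.sum_add_distrib]
    refine Finset.sum_congr rfl fun l _ => ?_
    rw [hLM k l, second hV hH hc hz k l]
    unfold hermi
    ring
  have h5 : (hermi (LM f z) e e).re = lev f z e := by
    rw [← hlev, Complex.ofReal_re]
  have h6 := congrArg Complex.re hmain
  rw [Complex.add_re, h5] at h6
  linarith

end Pool.Agent.Helper10.HS.HNEGHp
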