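import Pool.Agent.Helper10.HS.GoalsL

/-! # HS, packet NHCC -/

open Complex Metric Set Filter Topology MeasureTheory
open scoped ContDiff ComplexConjugate ComplexOrder Manifold Matrix

namespace Pool.Agent.Helper10.HS

open Pool.Agent.Helper95.Lin Pool.Agent.Helper16.Abund Pool.Agent.Helper92.Orb
open Pool.Agent.Helper10.SP Pool.Agent.Helper95.RK Pool.Agent.Helper15.RK
open Pool.Agent.Helper57.HS Pool.Agent.Helper10.RK

universe u v

theorem curv_eq {n : ℕ} (H : Cn n → Matrix (Fin n) (Fin n) ℂ) (x : Cn n) (i j k l : Fin n) :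
    crv H x i j k l = Pool.Agent.Helper10.Stmt.curv H x i j k l := by
  have h1 : (cdM k H x * (H x)⁻¹ * cdbM l H x) i j =
      ∑ p, ∑ q, cd k (fun y => H y i p) x * (H x)⁻¹ p q * cdb l (fun y => H y q j) x := by
    rw [Matrix.mul_apply, Finset.sum_comm]
    refine Finset.sum_congr rfl fun q _ => ?_
    rw [Matrix.mul_apply, Finset.sum_mul]
    rfl
  unfold crv
  rw [h1]
  rfl

theorem nhcc : S_NHCC.{v} := by
  intro n M _ _ h hN V ψ hψ x hx v
  have h1 := hN V ψ ⟨⟨hψ.1.1, hψ.1.2⟩, hψ.2⟩ x hx v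
  have h2 : ∀ i j k l, crv (pm n h ψ) x i j k l =
      Pool.Agent.Helper10.Stmt.curv (Pool.Agent.Helper10.Stmt.pullM n h ψ) x i j k l :=
    fun i j k l => curv_eq _ x i j k l
  simp only [h2]
  exact h1

end Pool.Agent.Helper10.HS
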