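import Pool.Agent.Helper10.HS.GoalsL
import Pool.Agent.Helper35.RK.PMB

/-! # HS, packet PMH (after `Helper35/RK/PMB.lean`) -/

open Complex Metric Set Filter Topology MeasureTheory
open scoped ContDiff ComplexConjugate ComplexOrder Manifold Matrix

namespace Pool.Agent.Helper10.HS.PMHp

open Pool.Agent.Helper95.Lin Pool.Agent.Helper16.Abund Pool.Agent.Helper92.Orb
open Pool.Agent.Helper10.SP Pool.Agent.Helper95.RK Pool.Agent.Helper35.RK Pool.Agent.Helper57.HS
open Pool.Agent.Helper10.HS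

universe u v

/-- PMH. -/
theorem pmh : S_PMH.{u, v} := by
  intro n G M _ _ _ _ _ _ h hData q hq hinv
  have hact := hData.act
  constructor
  · intro V ψ hψ
    refine ⟨fun i j => Pool.Agent.Helper9.RK.pm_smooth (hq.2 V ψ hψ.1) i j,
      fun x hx => Pool.Agent.Helper9.RK.pm_posDef hq.1 (hψ.2 x hx),
      fun x _ u w => Pool.Agent.Helper9.RK.hermi_pm q ψ x u w, ?_⟩
    intro γ x hx
    have hm : MDifferentiableAt 𝓘(ℂ, Fin n → ℂ) 𝓘(ℂ, Fin n → ℂ) ψ x :=
      hψ.1.2.mdifferentiableAt (hψ.1.1.mem_nhds hx)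
    have hd : ∀ u : Cn n, dvec n (fun y => γ • ψ y) x u =
        tvec n (fun y : M => γ • y) (ψ x) (dvec n ψ x u) := by
      intro u
      show dvec n ((fun y : M => γ • y) ∘ ψ) x u = _
      unfold dvec dmap tvec
      rw [mfderiv_comp x (hact.holo γ (ψ x)) hm]
      rfl
    ext i j
    show herm (q (γ • ψ x)) (dvec n (fun y => γ • ψ y) x (Pi.single i 1))
      (dvec n (fun y => γ • ψ y) x (Pi.single j 1)) = _
    rw [hd, hd]
    exact hinv γ (ψ x) _ _
  · intro V V' ψ φ hψ hV' hφ hmaps _ x hx u w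
    have hm : MDifferentiableAt 𝓘(ℂ, Fin n → ℂ) 𝓘(ℂ, Fin n → ℂ) ψ (φ x) :=
      hψ.1.2.mdifferentiableAt (hψ.1.1.mem_nhds (hmaps hx))
    have hφx : DifferentiableAt ℂ φ x := hφ.differentiableAt (hV'.mem_nhds hx)
    rw [Pool.Agent.Helper9.RK.hermi_pm, Pool.Agent.Helper9.RK.hermi_pm,
      dvec_comp_fderiv hm hφx, dvec_comp_fderiv hm hφx]
    rfl

end Pool.Agent.Helper10.HS.PMHp
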