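import Pool.Agent.Helper10.HS.GoalsL
import Pool.Agent.Helper27.SP.LMAP

/-!
# HS, packet UNIH: a parametrization with cocompact image
-/

open Complex Metric Set Filter Topology MeasureTheory
open scoped ContDiff ComplexConjugate ComplexOrder Manifold Matrix

namespace Pool.Agent.Helper10.HS.UNIHp

open Pool.Agent.Helper95.Lin Pool.Agent.Helper16.Abund Pool.Agent.Helper92.Orb
  Pool.Agent.Helper10.SP Pool.Agent.Helper95.RK Pool.Agent.Helper57.HS Pool.Agent.Helper10.HS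
open Pool.Agent.Helper27.SP (par_local)

universe u v

theorem par_shift {n : ℕ} {G : Type u} {M : Type v} [Group G] [MulAction G M]
    [TopologicalSpace M] [T2Space M] [ChartedSpace (Fin n → ℂ) M]
    [IsManifold 𝓘(ℂ, Fin n → ℂ) ω M] {h : M → Matrix (Fin n) (Fin n) ℂ}
    (hPARH : S_PARH.{u, v}) (hD : DataH n G M h) {V V' : Set (Cn n)} {ψ : Cn n → M} (a : Cn n)
    (hψ : Par n ψ V) (hV' : IsOpen V') (hm : MapsTo (fun y => y + a) V' V) :
    Par n (ψ ∘ fun y => y + a) V' := by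
  have hdet : ∀ x : Cn n, (fderiv ℂ (fun y : Cn n => y + a) x).det = 1 := by
    intro x
    rw [fderiv_add_const, fderiv_fun_id]
    simp [ContinuousLinearMap.det]
  exact ((hPARH hD).1 V V' ψ (fun y => y + a) hψ hV'
    ((differentiable_id.add_const _).differentiableOn) hm
    (fun x _ => by rw [hdet]; exact one_ne_zero)).1

theorem unih (hPARH : S_PARH.{u, v}) : S_UNIH.{u, v} := by
  classical
  intro n G M _ _ _ _ _ _ _ h hn hD
  have hP4 := (hPARH hD).2.2.2.1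
  have hch : ∀ p : M, ∃ (r : ℝ) (ψ : Cn n → M), 0 < r ∧ r ≤ 1 ∧ Par n ψ (ball 0 (2 * r)) ∧
      ψ 0 = p := by
    intro p
    obtain ⟨s, hs, hsub⟩ := Metric.isOpen_iff.1 (chartAt (Fin n → ℂ) p).open_target _
      (mem_chart_target (Fin n → ℂ) p)
    have hpar : Par n (chartAt (Fin n → ℂ) p).symm (chartAt (Fin n → ℂ) p).target :=
      ⟨⟨(chartAt (Fin n → ℂ) p).open_target, mdiff_chart_symm p⟩,
        fun z hz => jac_chart_symm_ne_zero p hz⟩
    refine ⟨min (s / 2) 1, (chartAt (Fin n → ℂ) p).symm ∘ fun y => y + chartAt (Fin n → ℂ) p p,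
      by positivity, min_le_right _ _, par_shift hPARH hD _ hpar isOpen_ball ?_, ?_⟩
    · intro y hy
      refine hsub ?_
      rw [mem_ball, dist_eq_norm]
      rw [mem_ball_zero_iff] at hy
      have : min (s / 2) 1 ≤ s / 2 := min_le_left _ _
      change ‖y + chartAt (Fin n → ℂ) p p - chartAt (Fin n → ℂ) p p‖ < s
      rw [add_sub_cancel_right]
      linarith
    · change (chartAt (Fin n → ℂ) p).symm (0 + chartAt (Fin n → ℂ) p p) = p
      rw [zero_add, (chartAt (Fin n → ℂ) p).left_inv (mem_chart_source _ p)]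
  choose r ψ hr0 hr1 hS h0 using hch
  obtain ⟨K, hK, hcov⟩ := hD.act.cocompact
  have hopen : ∀ p : M, IsOpen (ψ p '' ball 0 (r p)) := fun p =>
    hP4 _ (ψ p) (hS p) _ (ball_subset_ball (by linarith [hr0 p])) isOpen_ball
  have hmem : ∀ p : M, p ∈ ψ p '' ball 0 (r p) := fun p => ⟨0, mem_ball_self (hr0 p), h0 p⟩
  obtain ⟨t, ht⟩ := hK.elim_finite_subcover (fun p : M => ψ p '' ball 0 (r p)) hopen
    (fun p _ => mem_iUnion.mpr ⟨p, hmem p⟩)
  obtain ⟨x₀⟩ := (inferInstance : Nonempty M)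
  obtain ⟨γ₀, hγ₀⟩ := hcov x₀
  have hpos : 0 < t.card := by
    obtain ⟨p, hp⟩ := mem_iUnion.mp (ht hγ₀)
    obtain ⟨hpt, -⟩ := mem_iUnion.mp hp
    exact Finset.card_pos.mpr ⟨p, hpt⟩
  -- the centres
  let c : Fin t.card → Cn n := fun i _ => ((10 * (i : ℕ) : ℝ) : ℂ)
  have hne : Nonempty (Fin n) := ⟨⟨0, hn⟩⟩
  have hsep : ∀ i j, i ≠ j → (10 : ℝ) ≤ ‖c i - c j‖ := by
    intro i j hij
    have h1 : ‖(c i - c j) ⟨0, hn⟩‖ ≤ ‖c i - c j‖ := norm_le_pi_norm (c i - c j) ⟨0, hn⟩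
    refine le_trans ?_ h1
    have h2 : (c i - c j) ⟨0, hn⟩ = (((10 * (i : ℕ) : ℝ) - (10 * (j : ℕ) : ℝ) : ℝ) : ℂ) := by
      simp [c]
    rw [h2, Complex.norm_real, Real.norm_eq_abs]
    have h3 : (1 : ℝ) ≤ |((i : ℕ) : ℝ) - ((j : ℕ) : ℝ)| := by
      have h4 : ((i : ℕ) : ℤ) ≠ ((j : ℕ) : ℤ) := by
        intro h5
        apply hij
        exact Fin.ext (by exact_mod_cast h5)
      have h5 : (1 : ℤ) ≤ |((i : ℕ) : ℤ) - ((j : ℕ) : ℤ)| :=
        Int.one_le_abs (sub_ne_zero.2 h4)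
      exact_mod_cast h5
    have h6 : (10 * ((i : ℕ) : ℝ) - 10 * ((j : ℕ) : ℝ)) =
        10 * (((i : ℕ) : ℝ) - ((j : ℕ) : ℝ)) := by ring
    rw [h6, abs_mul, abs_of_pos (by norm_num : (0 : ℝ) < 10)]
    linarith
  have huniq : ∀ (z : Cn n) i j, z ∈ ball (c i) 2 → z ∈ ball (c j) 2 → i = j := by
    intro z i j hi hj
    by_contra hij
    have h1 := hsep i j hij
    rw [mem_ball, dist_eq_norm] at hi hj
    have h2 : c i - c j = (z - c j) - (z - c i) := by abel
    have h3 : ‖c i - c j‖ ≤ ‖z - c j‖ + ‖z - c i‖ := by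
      rw [h2]; exact norm_sub_le _ _
    linarith
  let ix : Cn n → Fin t.card := fun z =>
    if h : ∃ i, z ∈ ball (c i) 2 then h.choose else ⟨0, hpos⟩
  have hix : ∀ (z : Cn n) i, z ∈ ball (c i) 2 → ix z = i := by
    intro z i hz
    have hex : ∃ i, z ∈ ball (c i) 2 := ⟨i, hz⟩
    have h1 : ix z = hex.choose := by
      simp only [ix]
      rw [dif_pos hex]
    rw [h1]
    exact huniq z _ _ hex.choose_spec hz
  let q : Fin t.card → M := fun i => t.equivFin.symm i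
  let E : Cn n → M := fun x => ψ (q (ix x)) (x + -c (ix x))
  have hEloc : ∀ (x : Cn n) i, x ∈ ball (c i) 2 →
      E =ᶠ[𝓝 x] (ψ (q i) ∘ fun y => y + -c i) := by
    intro x i hx
    filter_upwards [isOpen_ball.mem_nhds hx] with y hy
    have h1 : ix y = i := hix _ i hy
    simp only [E, h1, Function.comp]
  have hlt : ∀ i, 2 * r (q i) ≤ 2 := fun i => by linarith [hr1 (q i)]
  have hsh : ∀ i, Par n (ψ (q i) ∘ fun y => y + -c i) (ball (c i) (2 * r (q i))) := by
    intro i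
    refine par_shift hPARH hD _ (hS (q i)) isOpen_ball ?_
    intro y hy
    rw [mem_ball, dist_eq_norm] at hy
    rw [mem_ball_zero_iff]
    change ‖y + -c i‖ < _
    rwa [← sub_eq_add_neg]
  refine ⟨⋃ i, ball (c i) (2 * r (q i)), E, ?_, ⋃ i, closedBall (c i) (r (q i)), ?_, ?_, ?_⟩
  · refine par_local (isOpen_iUnion fun i => isOpen_ball) (fun x hx => ?_)
    obtain ⟨i, hi⟩ := mem_iUnion.1 hx
    exact ⟨_, _, hsh i, hi, hEloc x i (ball_subset_ball (hlt i) hi)⟩
  · refine iUnion_mono fun i => closedBall_subset_ball ?_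
    linarith [hr0 (q i)]
  · exact isCompact_iUnion fun i => isCompact_closedBall _ _
  · intro p
    obtain ⟨γ, hγ⟩ := hcov p
    obtain ⟨q', hq⟩ := mem_iUnion.mp (ht hγ)
    obtain ⟨hqt, x, hx, hxe⟩ := mem_iUnion.mp hq
    obtain ⟨i, hi⟩ : ∃ i, i = t.equivFin ⟨q', hqt⟩ := ⟨_, rfl⟩
    have h2 : q i = q' := by
      simp only [q, hi, Equiv.symm_apply_apply]
    have hz1 : x + c i ∈ ball (c i) (r (q i)) := by
      rw [mem_ball, dist_eq_norm, add_sub_cancel_right, h2]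
      exact mem_ball_zero_iff.1 hx
    refine ⟨γ, x + c i, mem_iUnion.2 ⟨i, ball_subset_closedBall hz1⟩, ?_⟩
    have h1 := (hEloc (x + c i) i
      (ball_subset_ball (by linarith [hr1 (q i)]) hz1)).eq_of_nhds
    rw [h1]
    change γ • p = ψ (q i) (x + c i + -c i)
    rw [add_neg_cancel_right, h2]
    exact hxe.symm

end Pool.Agent.Helper10.HS.UNIHp
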